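import Pool.Agent.helper81.PJ.Spec2

/-!
Row DENG of PJ: the dense cells, `2k`-th moment (row DEN by helper74 with `k` instead of `2`).
-/

set_option autoImplicit false

open Finset

namespace Pool.Agent.PJ

open Pool.Agent.PY2

lemma DENG_big (K a : ℝ) (ha : 0 < a) : ∃ p₀ : ℕ, ∀ p : ℕ, p₀ < p → K ≤ (p : ℝ) ^ a := by
  have h := ((tendsto_rpow_atTop ha).comp (tendsto_natCast_atTop_atTop (R := ℝ))).eventually_ge_atTop K
  obtain ⟨p₀, hp⟩ := Filter.eventually_atTop.1 h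
  exact ⟨p₀, fun p h => hp p h.le⟩

lemma DENG_num (j : ℕ) : (32 : ℝ) ^ (j + 1) = 2 ^ (j + 1) * (4 ^ (2 * j + 1) * 4) := by
  have h : (32 : ℝ) = 2 * 4 ^ 2 := by norm_num
  rw [h, mul_pow, ← pow_mul, ← pow_succ]
  congr 2

lemma DENG_core (j : ℕ) (W t q P G N L X Y b : ℝ)
    (hW : t ^ (j + 1) * W ^ (2 * (j + 1)) ≤ G * (N ^ (2 * (j + 1)) * b ^ (2 * j + 1) * (b + q / L)))
    (hG0 : 0 ≤ G) (hGP : G * (2 * 32 ^ (j + 1)) ≤ P) (hP : 1 ≤ P) (hb0 : 0 ≤ b) (hb : b ≤ 4 * Y)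
    (hL : 0 < L) (hNL : N ≤ 2 * (t * L)) (hN : 0 < N) (ht : 0 < t) (hq : 0 < q) (hX : 0 < X)
    (hY : 0 < Y) (h1 : N ^ 2 * P ^ 4 ≤ 2 * t * X ^ 2)
    (h2 : N ^ (2 * j + 1) * (q * P ^ (2 * j + 4)) ≤ (2 * t) ^ j * (X ^ (2 * (j + 1)) * Y)) :
    W * P ≤ X * Y := by
  have hP0 : 0 < P := by linarith
  have hqL : q / L ≤ 2 * t * q / N := by
    rw [div_le_div_iff₀ hL hN]
    nlinarith [mul_le_mul_of_nonneg_left hNL hq.le]
  have hb3 : b ^ (2 * j + 1) ≤ (4 * Y) ^ (2 * j + 1) := pow_le_pow_left₀ hb0 hb _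
  have hA : b ^ (2 * j + 1) * (b + q / L) ≤ (4 * Y) ^ (2 * j + 1) * (4 * Y + 2 * t * q / N) :=
    mul_le_mul hb3 (add_le_add hb hqL) (by positivity) (by positivity)
  have hB : N ^ (2 * (j + 1)) * b ^ (2 * j + 1) * (b + q / L) ≤
      N ^ (2 * j + 2) * (4 * Y) ^ (2 * j + 2) + N ^ (2 * j + 1) * q * ((4 * Y) ^ (2 * j + 1) * (2 * t)) := by
    calc N ^ (2 * (j + 1)) * b ^ (2 * j + 1) * (b + q / L) =
          N ^ (2 * (j + 1)) * (b ^ (2 * j + 1) * (b + q / L)) := by ring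
      _ ≤ N ^ (2 * (j + 1)) * ((4 * Y) ^ (2 * j + 1) * (4 * Y + 2 * t * q / N)) :=
          mul_le_mul_of_nonneg_left hA (by positivity)
      _ = N ^ (2 * j + 2) * (4 * Y) ^ (2 * j + 2) +
          N ^ (2 * j + 1) * q * ((4 * Y) ^ (2 * j + 1) * (2 * t)) * (N / N) := by
          ring
      _ = N ^ (2 * j + 2) * (4 * Y) ^ (2 * j + 2) +
          N ^ (2 * j + 1) * q * ((4 * Y) ^ (2 * j + 1) * (2 * t)) := by
          rw [div_self hN.ne', mul_one]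
  have hnum := DENG_num j
  have h2p : (0 : ℝ) < 2 ^ (j + 1) := by positivity
  -- the first term
  have t1 : G * (N ^ (2 * j + 2) * (4 * Y) ^ (2 * j + 2)) * P ^ (2 * j + 2) * 2 ≤
      t ^ (j + 1) * (X * Y) ^ (2 * j + 2) := by
    have a1 : (N ^ 2 * P ^ 4) ^ (j + 1) ≤ (2 * t * X ^ 2) ^ (j + 1) :=
      pow_le_pow_left₀ (by positivity) h1 _
    have a2 : G * (2 * 32 ^ (j + 1)) ≤ P ^ (2 * j + 2) :=
      hGP.trans (le_self_pow₀ hP (by omega))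
    have a3 : G * (2 * 32 ^ (j + 1)) * (N ^ (2 * j + 2) * P ^ (2 * j + 2)) ≤
        2 ^ (j + 1) * (t ^ (j + 1) * X ^ (2 * j + 2)) := by
      calc G * (2 * 32 ^ (j + 1)) * (N ^ (2 * j + 2) * P ^ (2 * j + 2)) ≤
            P ^ (2 * j + 2) * (N ^ (2 * j + 2) * P ^ (2 * j + 2)) :=
            mul_le_mul_of_nonneg_right a2 (by positivity)
        _ = (N ^ 2 * P ^ 4) ^ (j + 1) := by ring
        _ ≤ (2 * t * X ^ 2) ^ (j + 1) := a1
        _ = 2 ^ (j + 1) * (t ^ (j + 1) * X ^ (2 * j + 2)) := by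
            rw [mul_pow, mul_pow, ← pow_mul]
            ring
    refine le_of_mul_le_mul_left ?_ h2p
    calc 2 ^ (j + 1) * (G * (N ^ (2 * j + 2) * (4 * Y) ^ (2 * j + 2)) * P ^ (2 * j + 2) * 2)
        = G * (2 * 32 ^ (j + 1)) * (N ^ (2 * j + 2) * P ^ (2 * j + 2)) * Y ^ (2 * j + 2) := by
          rw [hnum, mul_pow, pow_succ (4 : ℝ) (2 * j + 1)]
          ring
      _ ≤ 2 ^ (j + 1) * (t ^ (j + 1) * X ^ (2 * j + 2)) * Y ^ (2 * j + 2) :=
          mul_le_mul_of_nonneg_right a3 (by positivity)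
      _ = 2 ^ (j + 1) * (t ^ (j + 1) * (X * Y) ^ (2 * j + 2)) := by
          rw [mul_pow X Y]
          ring
  -- the second term
  have t2 : G * (N ^ (2 * j + 1) * q * ((4 * Y) ^ (2 * j + 1) * (2 * t))) * P ^ (2 * j + 2) * 2 ≤
      t ^ (j + 1) * (X * Y) ^ (2 * j + 2) := by
    have b2 : G * (2 * 32 ^ (j + 1)) ≤ P ^ 2 := hGP.trans (le_self_pow₀ hP (by omega))
    have b3 : G * (2 * 32 ^ (j + 1)) * (N ^ (2 * j + 1) * (q * P ^ (2 * j + 2))) ≤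
        (2 * t) ^ j * (X ^ (2 * (j + 1)) * Y) := by
      calc G * (2 * 32 ^ (j + 1)) * (N ^ (2 * j + 1) * (q * P ^ (2 * j + 2))) ≤
            P ^ 2 * (N ^ (2 * j + 1) * (q * P ^ (2 * j + 2))) :=
            mul_le_mul_of_nonneg_right b2 (by positivity)
        _ = N ^ (2 * j + 1) * (q * P ^ (2 * j + 4)) := by ring
        _ ≤ (2 * t) ^ j * (X ^ (2 * (j + 1)) * Y) := h2
    refine le_of_mul_le_mul_left ?_ h2p
    have hpos : 0 ≤ G * 2 * 2 ^ (j + 1) * (4 ^ (2 * j + 1) * 3) *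
        (N ^ (2 * j + 1) * (q * P ^ (2 * j + 2))) * (Y ^ (2 * j + 1) * (2 * t)) := by positivity
    calc 2 ^ (j + 1) * (G * (N ^ (2 * j + 1) * q * ((4 * Y) ^ (2 * j + 1) * (2 * t))) *
          P ^ (2 * j + 2) * 2)
        = G * (2 * 32 ^ (j + 1)) * (N ^ (2 * j + 1) * (q * P ^ (2 * j + 2))) *
            (Y ^ (2 * j + 1) * (2 * t)) -
          G * 2 * 2 ^ (j + 1) * (4 ^ (2 * j + 1) * 3) *
            (N ^ (2 * j + 1) * (q * P ^ (2 * j + 2))) * (Y ^ (2 * j + 1) * (2 * t)) := by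
          rw [hnum, mul_pow 4 Y]
          ring
      _ ≤ G * (2 * 32 ^ (j + 1)) * (N ^ (2 * j + 1) * (q * P ^ (2 * j + 2))) *
            (Y ^ (2 * j + 1) * (2 * t)) := by linarith
      _ ≤ (2 * t) ^ j * (X ^ (2 * (j + 1)) * Y) * (Y ^ (2 * j + 1) * (2 * t)) :=
          mul_le_mul_of_nonneg_right b3 (by positivity)
      _ = 2 ^ (j + 1) * (t ^ (j + 1) * (X * Y) ^ (2 * j + 2)) := by
          rw [mul_pow X Y, mul_pow 2 t]
          ring
  have hF : (W * P) ^ (2 * (j + 1)) ≤ (X * Y) ^ (2 * (j + 1)) := by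
    have hpos : 0 < t ^ (j + 1) := by positivity
    refine le_of_mul_le_mul_left ?_ hpos
    calc t ^ (j + 1) * (W * P) ^ (2 * (j + 1)) =
          t ^ (j + 1) * W ^ (2 * (j + 1)) * P ^ (2 * j + 2) := by
          rw [mul_pow W P]
          ring
      _ ≤ G * (N ^ (2 * j + 2) * (4 * Y) ^ (2 * j + 2) +
          N ^ (2 * j + 1) * q * ((4 * Y) ^ (2 * j + 1) * (2 * t))) * P ^ (2 * j + 2) :=
          mul_le_mul_of_nonneg_right (hW.trans (mul_le_mul_of_nonneg_left hB hG0)) (by positivity)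
      _ ≤ t ^ (j + 1) * (X * Y) ^ (2 * j + 2) := by
          rw [mul_add, add_mul]
          linarith
      _ = t ^ (j + 1) * (X * Y) ^ (2 * (j + 1)) := by ring
  by_contra hcon
  rw [not_le] at hcon
  exact absurd hF (not_le.2 (pow_lt_pow_left₀ hcon (by positivity) (by omega)))

lemma DENG_fin (S W R N X Y a b : ℝ)
    (hS : S ^ 2 ≤ b * a * (N * b / (N * R ^ 2 / X) + 2 * W)) (hW : W * R ^ 2 ≤ X * Y)
    (hR : 0 < R) (hN : 0 < N) (hX : 0 < X) (hY : 0 < Y) (ha0 : 0 ≤ a) (ha : a ≤ 4 * X)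
    (hb0 : 0 ≤ b) (hb : b ≤ 4 * Y) : S ≤ 10 * R⁻¹ * (X * Y) := by
  have hR2 : 0 < R ^ 2 := by positivity
  have h1 : N * b / (N * R ^ 2 / X) = b * X / R ^ 2 := by
    field_simp
  have hW' : W ≤ X * Y / R ^ 2 := by
    rw [le_div_iff₀ hR2]
    exact hW
  have h2 : b * X / R ^ 2 ≤ 4 * Y * X / R ^ 2 :=
    div_le_div_of_nonneg_right (mul_le_mul_of_nonneg_right hb hX.le) hR2.le
  have h3 : N * b / (N * R ^ 2 / X) + 2 * W ≤ 6 * (X * Y) / R ^ 2 := by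
    rw [h1]
    have h4 : 6 * (X * Y) / R ^ 2 = 4 * Y * X / R ^ 2 + 2 * (X * Y / R ^ 2) := by ring
    rw [h4]
    linarith
  have h5 : b * a ≤ 4 * Y * (4 * X) := mul_le_mul hb ha ha0 (by positivity)
  have h6 : S ^ 2 ≤ 4 * Y * (4 * X) * (6 * (X * Y) / R ^ 2) := by
    refine hS.trans ?_
    calc b * a * (N * b / (N * R ^ 2 / X) + 2 * W) ≤ b * a * (6 * (X * Y) / R ^ 2) :=
          mul_le_mul_of_nonneg_left h3 (mul_nonneg hb0 ha0)
      _ ≤ 4 * Y * (4 * X) * (6 * (X * Y) / R ^ 2) :=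
          mul_le_mul_of_nonneg_right h5 (by positivity)
  have h7 : S ^ 2 ≤ (10 * R⁻¹ * (X * Y)) ^ 2 := by
    refine h6.trans ?_
    have h8 : (10 * R⁻¹ * (X * Y)) ^ 2 = 100 * (X * Y) ^ 2 / R ^ 2 := by
      field_simp
      ring
    have h9 : 4 * Y * (4 * X) * (6 * (X * Y) / R ^ 2) = 96 * (X * Y) ^ 2 / R ^ 2 := by
      ring
    rw [h8, h9]
    refine div_le_div_of_nonneg_right ?_ hR2.le
    nlinarith [sq_nonneg (X * Y)]
  exact (abs_le.1 (abs_le_of_sq_le_sq h7 (by positivity))).2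

theorem DENG (hCSA : CSA_stmt) (hDPG : DPG_stmt) (hDIV : DIV_stmt) : DENG_stmt := by
  intro k hk κ hκ
  obtain ⟨j, rfl⟩ : ∃ j, k = j + 1 := ⟨k - 1, by omega⟩
  have hm0 : (0 : ℝ) < 2 * (j : ℝ) + 3 := by positivity
  obtain ⟨D, hD, hDPc⟩ := hDPG (j + 1) hk
  obtain ⟨C, hC, hCd⟩ := hDIV (κ / 4) (by positivity)
  obtain ⟨C', hC', hCd'⟩ := hDIV (κ / (8 * (2 * (j : ℝ) + 3))) (by positivity)
  obtain ⟨p₁, hp₁⟩ := DENG_big (D * C * (2 * 32 ^ (j + 1))) (κ / 2) (by positivity)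
  obtain ⟨p₂, hp₂⟩ := DENG_big (C' ^ (2 * j + 3)) (κ / 8) (by positivity)
  refine ⟨p₁ + p₂ + 7, ?_⟩
  intro p _ hp N L s X Y A B hA hX hY hAX hBY hL hsL hNs h72 h24 hH1 hH2 hcell χ hχ β hβ
  have hpp : (0 : ℝ) < p := by
    have : 0 < p := by omega
    exact_mod_cast this
  have hp1 : (1 : ℝ) ≤ p := by
    have : 1 ≤ p := by omega
    exact_mod_cast this
  set P : ℝ := (p : ℝ) ^ κ with hPdef
  have hP0 : 0 < P := Real.rpow_pos_of_pos hpp _
  have hP1 : 1 ≤ P := Real.one_le_rpow hp1 hκ.le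
  set R : ℝ := (p : ℝ) ^ (κ / 2) with hRdef
  have hR : 0 < R := Real.rpow_pos_of_pos hpp _
  have hR2 : P = R ^ 2 := by
    rw [hRdef, hPdef, ← Real.rpow_natCast, ← Real.rpow_mul hpp.le]
    congr 1
    push_cast
    ring
  have hP4 : (p : ℝ) ^ (4 * κ) = P ^ 4 := by
    rw [hPdef, ← Real.rpow_natCast, ← Real.rpow_mul hpp.le]
    congr 1
    push_cast
    ring
  have hPj : (p : ℝ) ^ (1 + (2 * ((j + 1 : ℕ) : ℝ) + 2) * κ) = p * P ^ (2 * j + 4) := by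
    rw [Real.rpow_add hpp, Real.rpow_one, hPdef, ← Real.rpow_natCast ((p : ℝ) ^ κ),
      ← Real.rpow_mul hpp.le]
    congr 2
    push_cast
    ring
  have hNpos : 0 < N := by
    have h1 : 0 < 2 ^ s * L := Nat.mul_pos (by positivity) hL
    omega
  have hN0 : (0 : ℝ) < N := by exact_mod_cast hNpos
  have hL0 : (0 : ℝ) < L := by exact_mod_cast hL
  have ht0 : (0 : ℝ) < (2 : ℝ) ^ s := by positivity
  have h2s : 2 ^ s ≤ p := by
    refine le_trans ?_ h24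
    exact Nat.le_self_pow (by omega) _
  have h2s1 : 2 * 2 ^ s + 1 < p := by
    rcases Nat.lt_or_ge (2 ^ s) 4 with h | h
    · omega
    · have h3 : 2 ^ s * 4 ≤ (2 ^ s) ^ (2 * (j + 1)) := by
        calc 2 ^ s * 4 ≤ 2 ^ s * 2 ^ s := Nat.mul_le_mul_left _ h
          _ = (2 ^ s) ^ 2 := by ring
          _ ≤ (2 ^ s) ^ (2 * (j + 1)) := Nat.pow_le_pow_right (by positivity) (by omega)
      omega
  -- the divisor bound
  set T : ℕ := ⌊C * (p : ℝ) ^ (κ / 4)⌋₊ with hT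
  have hTle : (T : ℝ) ≤ C * (p : ℝ) ^ (κ / 4) := Nat.floor_le (by positivity)
  have hTd : ∀ m : ℕ, 1 ≤ m → m ≤ p → m.divisors.card ≤ T := by
    intro m hm hmp
    refine Nat.le_floor ((hCd m hm).trans ?_)
    refine mul_le_mul_of_nonneg_left ?_ hC.le
    exact Real.rpow_le_rpow (by positivity) (by exact_mod_cast hmp) (by positivity)
  -- the logarithmic factor
  have hs5 : ((s : ℝ) + 1) ^ (2 * j + 3) ≤ (p : ℝ) ^ (κ / 4) := by
    have h1 : ((2 ^ s).divisors.card : ℝ) = (s : ℝ) + 1 := by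
      rw [Nat.divisors_prime_pow Nat.prime_two, card_map, card_range]
      push_cast
      ring
    have h2 := hCd' (2 ^ s) Nat.one_le_two_pow
    rw [h1] at h2
    have h3 : ((2 ^ s : ℕ) : ℝ) ^ (κ / (8 * (2 * (j : ℝ) + 3))) ≤
        (p : ℝ) ^ (κ / (8 * (2 * (j : ℝ) + 3))) :=
      Real.rpow_le_rpow (by positivity) (by exact_mod_cast h2s) (by positivity)
    have h4 : (s : ℝ) + 1 ≤ C' * (p : ℝ) ^ (κ / (8 * (2 * (j : ℝ) + 3))) :=
      h2.trans (mul_le_mul_of_nonneg_left h3 hC'.le)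
    calc ((s : ℝ) + 1) ^ (2 * j + 3) ≤
          (C' * (p : ℝ) ^ (κ / (8 * (2 * (j : ℝ) + 3)))) ^ (2 * j + 3) :=
          pow_le_pow_left₀ (by positivity) h4 _
      _ = C' ^ (2 * j + 3) * (p : ℝ) ^ (κ / 8) := by
          rw [mul_pow, ← Real.rpow_natCast ((p : ℝ) ^ (κ / (8 * (2 * (j : ℝ) + 3)))),
            ← Real.rpow_mul hpp.le]
          congr 2
          push_cast
          field_simp
      _ ≤ (p : ℝ) ^ (κ / 8) * (p : ℝ) ^ (κ / 8) :=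
          mul_le_mul_of_nonneg_right (hp₂ p (by omega)) (by positivity)
      _ = (p : ℝ) ^ (κ / 4) := by
          rw [← Real.rpow_add hpp]
          congr 1
          ring
  have hG : D * ((s : ℝ) + 1) ^ (2 * j + 3) * T * (2 * 32 ^ (j + 1)) ≤ P := by
    have e1 : (p : ℝ) ^ (κ / 4) * (p : ℝ) ^ (κ / 4) = R := by
      rw [hRdef, ← Real.rpow_add hpp]
      congr 1
      ring
    calc D * ((s : ℝ) + 1) ^ (2 * j + 3) * T * (2 * 32 ^ (j + 1)) ≤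
          D * (p : ℝ) ^ (κ / 4) * (C * (p : ℝ) ^ (κ / 4)) * (2 * 32 ^ (j + 1)) := by
          refine mul_le_mul_of_nonneg_right ?_ (by positivity)
          refine mul_le_mul ?_ hTle (by positivity) (by positivity)
          exact mul_le_mul_of_nonneg_left hs5 hD.le
      _ = (D * C * (2 * 32 ^ (j + 1))) * ((p : ℝ) ^ (κ / 4) * (p : ℝ) ^ (κ / 4)) := by ring
      _ = (D * C * (2 * 32 ^ (j + 1))) * R := by rw [e1]
      _ ≤ R * R := mul_le_mul_of_nonneg_right (hp₁ p (by omega)) hR.le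
      _ = P := by rw [hR2, sq]
  have hDP := hDPc p χ hχ N L s T B hL hsL h72 h24 h2s1 hTd
  have e2 : 2 * (j + 1) - 1 = 2 * j + 1 := by omega
  have e3 : 2 * (j + 1) + 1 = 2 * j + 3 := by omega
  have e4 : j + 1 - 1 = j := by omega
  rw [e2, e3] at hDP
  rw [hP4] at hH1
  rw [hPj, e2, e4] at hH2
  have hNs' : (N : ℝ) ≤ 2 * ((2 : ℝ) ^ s * L) := by exact_mod_cast hNs
  have hWW : WW χ B N L * P ≤ X * Y :=
    DENG_core j (WW χ B N L) ((2 : ℝ) ^ s) p P (D * ((s : ℝ) + 1) ^ (2 * j + 3) * T) N L X Y B.card hDP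
      (by positivity) hG hP1 (by positivity) hBY hL0 hNs' hN0 ht0 hpp hX hY hH1 hH2
  have hE : 0 < (N : ℝ) * P / X := by positivity
  have hCS := hCSA p χ N L ((N : ℝ) * P / X) A B β hA hL hE hβ hcell
  rw [hR2] at hCS hWW
  have hfin := DENG_fin _ (WW χ B N L) R N X Y A.card B.card hCS hWW hR hN0 hX hY (by positivity)
    hAX (by positivity) hBY
  rw [Real.rpow_neg hpp.le]
  exact hfin

end Pool.Agent.PJ
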